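import Pool.Agent.Q248.L72.All

set_option autoImplicit false

namespace Pool.Agent.Results.MP_d7404b_nt.NormTwelve

/-- **Question Q1 of MP_d7404b_nt, answered in the affirmative.** Let `L` be a lattice of full rank
in Euclidean space of dimension 72 (a discrete subgroup spanning the space) which is even and
unimodular, i.e. all norms `(x, x)` are even integers and `L` is equal to its dual lattice, and
whose minimal nonzero norm is `8`. Then the vectors of norm `12` of `L` generate `L`. -/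
theorem result (L : Submodule ℤ (EuclideanSpace ℝ (Fin 72)))
    (hdisc : DiscreteTopology L) (hfull : Submodule.span ℝ (L : Set (EuclideanSpace ℝ (Fin 72))) = ⊤)
    (heven : ∀ x ∈ L, ∃ k : ℤ, inner ℝ x x = 2 * (k : ℝ))
    (hdual : ∀ y : EuclideanSpace ℝ (Fin 72),
      y ∈ L ↔ ∀ x ∈ L, ∃ k : ℤ, inner ℝ x y = (k : ℝ))
    (hmin : IsLeast {m : ℝ | ∃ x ∈ L, x ≠ 0 ∧ inner ℝ x x = m} 8) :
    Submodule.span ℤ {x | x ∈ L ∧ inner ℝ x x = (12 : ℝ)} = L :=
  Pool.Agent.Q248.L72.main L ⟨hdisc, ⟨hfull⟩, heven, hdual⟩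
    (fun x hx hx0 => hmin.2 ⟨x, hx, hx0, rfl⟩)
    (by
      obtain ⟨x, hx, -, h8⟩ := hmin.1
      exact ⟨x, hx, h8⟩)

end Pool.Agent.Results.MP_d7404b_nt.NormTwelve
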